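import Pool.Agent.Y262.EG.Stm

/-!
# EG-DVP: the frame acts by measure preserving derivations
-/

set_option autoImplicit false

open Set Filter Topology MeasureTheory
open scoped ContDiff

noncomputable section

namespace Pool.Agent.Y10.EG

open Pool.Agent.Y262.EG

variable {P : Type}

theorem isOpen_YO {Ω : Set ℂ} (h : IsOpen Ω) : IsOpen (YO Ω) := h.preimage continuous_fst

theorem diffAt {Ω : Set ℂ} (h : IsOpen Ω) {q : Y → P} {F : P → ℝ} (hF : AcP Ω q F) {p : Y}
    (hp : p ∈ YO Ω) : DifferentiableAt ℝ (fun p => F (q p)) p :=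
  (hF.contDiffAt ((isOpen_YO h).mem_nhds hp)).differentiableAt one_ne_zero

/-- one term of the partition of unity -/
theorem term [MetricSpace P] [CompactSpace P] [MeasurableSpace P] [BorelSpace P] {Ω : Set ℂ}
    {φ : ℂ → ℝ} {q : Y → P} {m : Measure P} (hO : IsOpen Ω) (hqc : ContinuousOn q (YO Ω))
    {W : Y → Y} (hct : ∀ F, AcP Ω q F → Continuous (dW Ω q W F))
    (hdW : ∀ F, AcP Ω q F → ∀ p ∈ YO Ω,
      dW Ω q W F (q p) = fderiv ℝ (fun p => F (q p)) p (W p))
    (hloc : ∀ F, AcP Ω q F → ∀ x, (∀ᶠ y in 𝓝 x, F y = 0) → dW Ω q W F x = 0)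
    (hcv : ∀ B : Set Y, MeasurableSet B → B ⊆ YO Ω → InjOn q B → MeasurableSet (q '' B) ∧
      ∀ G : P → ℝ, Measurable G → ∫ x in q '' B, G x ∂m =
        ∫ p in B, G (q p) * Real.exp (2 * φ p.1))
    (hdiv : ∀ u : Y → ℝ, ContDiff ℝ 1 u → HasCompactSupport u → tsupport u ⊆ YO Ω →
      ∫ p, fderiv ℝ u p (W p) * Real.exp (2 * φ p.1) = 0)
    (p : Y) (r : ℝ) (hball : Metric.ball p r ⊆ YO Ω) (hinj : InjOn q (Metric.ball p r))
    (u : Y → ℝ) (hu : ContDiff ℝ 1 u) (huc : HasCompactSupport u)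
    (hus : tsupport u ⊆ Metric.ball p r) (G : P → ℝ) (hG : AcP Ω q G)
    (hGu : ∀ y ∈ Metric.ball p r, G (q y) = u y) (hG0 : ∀ x, x ∉ q '' tsupport u → G x = 0)
    (g : P → ℝ) (hg : AcP Ω q g) :
    ∫ x, dW Ω q W (fun x => G x * g x) x ∂m = 0 := by
  have hH : AcP Ω q (fun x => G x * g x) := ContDiffOn.mul hG hg
  have hK : IsClosed (q '' tsupport u) :=
    (huc.isCompact.image_of_continuousOn (hqc.mono (hus.trans hball))).isClosed
  have h1 : ∫ x, dW Ω q W (fun x => G x * g x) x ∂m =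
      ∫ x in q '' Metric.ball p r, dW Ω q W (fun x => G x * g x) x ∂m := by
    symm
    apply setIntegral_eq_integral_of_forall_compl_eq_zero
    intro x hx
    refine hloc _ hH x ?_
    have hx' : x ∉ q '' tsupport u := fun h => hx (image_mono hus h)
    filter_upwards [hK.isOpen_compl.mem_nhds hx'] with y hy
    rw [hG0 y hy, zero_mul]
  rw [h1, (hcv _ Metric.isOpen_ball.measurableSet hball hinj).2 _ (hct _ hH).measurable]
  set v : Y → ℝ := fun y => u y * g (q y) with hv
  have hvs : tsupport v ⊆ tsupport u := tsupport_mul_subset_left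
  have hvc : HasCompactSupport v := huc.mul_right
  have hvd : ContDiff ℝ 1 v := by
    rw [contDiff_iff_contDiffAt]
    intro y
    by_cases hy : y ∈ tsupport u
    · have hy' : y ∈ YO Ω := hball (hus hy)
      exact hu.contDiffAt.mul (ContDiffOn.contDiffAt hg ((isOpen_YO hO).mem_nhds hy'))
    · have h3 : v =ᶠ[𝓝 y] fun _ => 0 := by
        filter_upwards [(isClosed_tsupport u).isOpen_compl.mem_nhds hy] with z hz
        rw [hv]
        simp only
        rw [image_eq_zero_of_notMem_tsupport hz, zero_mul]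
      exact contDiffAt_const.congr_of_eventuallyEq h3
  have h2 : ∫ y in Metric.ball p r, dW Ω q W (fun x => G x * g x) (q y) *
      Real.exp (2 * φ y.1) = ∫ y in Metric.ball p r, fderiv ℝ v y (W y) *
        Real.exp (2 * φ y.1) := by
    apply setIntegral_congr_fun Metric.isOpen_ball.measurableSet
    intro y hy
    simp only
    rw [hdW _ hH y (hball hy)]
    have h3 : (fun y => G (q y) * g (q y)) =ᶠ[𝓝 y] v := by
      filter_upwards [Metric.isOpen_ball.mem_nhds hy] with z hz
      rw [hGu z hz]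
    rw [h3.fderiv_eq]
  rw [h2]
  rw [setIntegral_eq_integral_of_forall_compl_eq_zero]
  · exact hdiv v hvd hvc (hvs.trans (hus.trans hball))
  · intro y hy
    have hy' : y ∉ tsupport v := fun h => hy (hus (hvs h))
    rw [fderiv_of_notMem_tsupport ℝ hy']
    simp

theorem dvP : StFrame → StDWP → StAlgP → StPush → StCV → StFinP → StDivUp → StDvP := by
  intro _ hDWP _ hPush hCV hFinP hDivUp M P _ _ _ _ _ _ Ω φ pr q m hUT hLi W hW
  obtain ⟨hlft, _, hAc⟩ := hDWP M P Ω φ pr q hUT
  haveI hfin : IsFiniteMeasure m := (hFinP M P Ω φ pr q m hUT hLi).1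
  have hO := hUT.opn
  have hOY := isOpen_YO hO
  have hct : ∀ F, AcP Ω q F → Continuous (dW Ω q W F) := fun F hF => ((hAc F hF).2 W hW).2
  have hdW : ∀ F, AcP Ω q F → ∀ p ∈ YO Ω,
      dW Ω q W F (q p) = fderiv ℝ (fun p => F (q p)) p (W p) :=
    fun F hF => ((hAc F hF).2 W hW).1
  have hloc : ∀ F, AcP Ω q F → ∀ x, (∀ᶠ y in 𝓝 x, F y = 0) → dW Ω q W F x = 0 := by
    intro F _ x hx
    obtain ⟨h1, h2⟩ := hlft x
    have h3 : Tendsto q (𝓝 (lft Ω q x)) (𝓝 x) := by
      have := hUT.contq.continuousAt (hOY.mem_nhds h1)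
      rwa [ContinuousAt, h2] at this
    have h4 : (fun p => F (q p)) =ᶠ[𝓝 (lft Ω q x)] fun _ => (0 : ℝ) := h3.eventually hx
    unfold dW
    rw [h4.fderiv_eq]
    simp
  refine ⟨hct, ?_, ?_, ?_, ?_, hloc⟩
  · intro F G hF hG α β x
    have hp := (hlft x).1
    have e1 := ((diffAt hO hF hp).hasFDerivAt.const_mul α).add
      ((diffAt hO hG hp).hasFDerivAt.const_mul β)
    have e2 : fderiv ℝ (fun p => α * F (q p) + β * G (q p)) (lft Ω q x) = _ := e1.fderiv
    unfold dW
    rw [e2]
    simp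
  · intro F G hF hG x
    have hp := (hlft x).1
    have e1 := ((diffAt hO hF hp).hasFDerivAt).mul ((diffAt hO hG hp).hasFDerivAt)
    have e2 : fderiv ℝ (fun p => F (q p) * G (q p)) (lft Ω q x) = _ := e1.fderiv
    unfold dW
    rw [e2]
    simp only [(hlft x).2, add_apply, smul_apply,
      smul_eq_mul]
    ring
  · intro F hF h0 x
    have hp := (hlft x).1
    have e1 := (hasDerivAt_inv (h0 (q (lft Ω q x)))).comp_hasFDerivAt (lft Ω q x)
      (diffAt hO hF hp).hasFDerivAt
    have e2 : fderiv ℝ (fun p => (F (q p))⁻¹) (lft Ω q x) = _ := e1.fderiv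
    unfold dW
    rw [e2]
    simp only [(hlft x).2, smul_apply, smul_eq_mul]
    ring
  · intro F hF
    classical
    -- the bumps
    have hb : ∀ x : P, ∃ (r : ℝ) (u : Y → ℝ) (G : P → ℝ), 0 < r ∧
        Metric.ball (lft Ω q x) r ⊆ YO Ω ∧ InjOn q (Metric.ball (lft Ω q x) r) ∧
        ContDiff ℝ 1 u ∧ HasCompactSupport u ∧ tsupport u ⊆ Metric.ball (lft Ω q x) r ∧
        AcP Ω q G ∧ (∀ y ∈ Metric.ball (lft Ω q x) r, G (q y) = u y) ∧
        (∀ z, z ∉ q '' tsupport u → G z = 0) ∧ (∀ y, 0 ≤ u y) ∧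
        ∀ y ∈ Metric.ball (lft Ω q x) (r / 4), u y = 1 := by
      intro x
      obtain ⟨r, hr, h1, h2, h3⟩ := hPush M P Ω φ pr q hUT (lft Ω q x) (hlft x).1
      let f : ContDiffBump (lft Ω q x) := ⟨r / 4, r / 2, by positivity, by linarith⟩
      have hfs : tsupport f ⊆ Metric.ball (lft Ω q x) r := by
        rw [f.tsupport_eq]
        exact Metric.closedBall_subset_ball (show r / 2 < r by linarith)
      obtain ⟨G, hG1, hG2, hG3⟩ := h3 f f.contDiff f.hasCompactSupport hfs
      refine ⟨r, f, G, hr, h1, h2, f.contDiff, f.hasCompactSupport, hfs, hG1, hG2, hG3,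
        fun y => f.nonneg, fun y hy => ?_⟩
      exact f.one_of_mem_closedBall (Metric.ball_subset_closedBall hy)
    choose r u G hr hball hinj hu huc hus hG hGu hG0 hun hu1 using hb
    have hGn : ∀ x z, 0 ≤ G x z := by
      intro x z
      by_cases hz : z ∈ q '' tsupport (u x)
      · obtain ⟨y, hy, rfl⟩ := hz
        rw [hGu x y (hus x hy)]
        exact hun x y
      · rw [hG0 x z hz]
    obtain ⟨t, _, ht⟩ := isCompact_univ.elim_nhds_subcover
      (fun x => q '' Metric.ball (lft Ω q x) (r x / 4)) (fun x _ => by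
        have h1 : IsOpen (q '' Metric.ball (lft Ω q x) (r x / 4)) :=
          hUT.opnq _ Metric.isOpen_ball ((Metric.ball_subset_ball
            (by have := hr x; linarith)).trans (hball x))
        refine h1.mem_nhds ⟨lft Ω q x, Metric.mem_ball_self (by have := hr x; linarith),
          (hlft x).2⟩)
    have hS : ∀ z, 0 < ∑ x ∈ t, G x z := by
      intro z
      have hz := ht (mem_univ z)
      simp only [mem_iUnion] at hz
      obtain ⟨x, hx, y, hy, rfl⟩ := hz
      have h1 : G x (q y) = 1 := by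
        rw [hGu x y (Metric.ball_subset_ball (by have := hr x; linarith) hy), hu1 x y hy]
      have h2 : G x (q y) ≤ ∑ x ∈ t, G x (q y) :=
        Finset.single_le_sum (fun x _ => hGn x (q y)) hx
      linarith
    set g : P → ℝ := fun z => (∑ x ∈ t, G x z)⁻¹ * F z with hgd
    have hg : AcP Ω q g := by
      have h1 : ContDiffOn ℝ 1 (fun p => ∑ x ∈ t, G x (q p)) (YO Ω) :=
        ContDiffOn.sum fun x _ => hG x
      have h2 : ContDiffOn ℝ 1 (fun p => (∑ x ∈ t, G x (q p))⁻¹ * F (q p)) (YO Ω) :=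
        (h1.inv fun p _ => (hS (q p)).ne').mul hF
      exact h2
    have hterm : ∀ x, ∫ z, dW Ω q W (fun z => G x z * g z) z ∂m = 0 := by
      intro x
      exact term hO hUT.contq hct hdW hloc
        (fun B h1 h2 h3 => ⟨(hCV M P Ω φ pr q m hUT hLi B h1 h2 h3).1,
          (hCV M P Ω φ pr q m hUT hLi B h1 h2 h3).2.2⟩)
        (hDivUp Ω φ hO hUT.smooth W hW) (lft Ω q x) (r x) (hball x) (hinj x) (u x) (hu x)
        (huc x) (hus x) (G x) (hG x) (hGu x) (hG0 x) g hg
    have hsum : dW Ω q W F = fun z => ∑ x ∈ t, dW Ω q W (fun z => G x z * g z) z := by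
      funext z
      have hp := (hlft z).1
      have e1 : (fun p => F (q p)) = fun p => ∑ x ∈ t, G x (q p) * g (q p) := by
        funext p
        rw [← Finset.sum_mul, hgd]
        simp only
        rw [← mul_assoc, mul_inv_cancel₀ (hS (q p)).ne', one_mul]
      have e2 : HasFDerivAt (fun p => ∑ x ∈ t, G x (q p) * g (q p))
          (∑ x ∈ t, fderiv ℝ (fun p => G x (q p) * g (q p)) (lft Ω q z)) (lft Ω q z) := by
        apply HasFDerivAt.fun_sum
        intro x _
        have hH : AcP Ω q (fun z => G x z * g z) := ContDiffOn.mul (hG x) hg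
        exact (diffAt hO hH hp).hasFDerivAt
      unfold dW
      rw [e1, e2.fderiv]
      simp
    rw [hsum, integral_finsetSum]
    · exact Finset.sum_eq_zero fun x _ => hterm x
    · intro x _
      have hH : AcP Ω q (fun z => G x z * g z) := ContDiffOn.mul (hG x) hg
      exact (hct _ hH).integrable_of_hasCompactSupport (HasCompactSupport.of_compactSpace _)

end Pool.Agent.Y10.EG
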